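import Pool.Agent.Q88.Heat.Bridge

/-!
# MP_6efe58_an, Q1: heat smoothing into CF for groups without property (T)

All definitions are in `Pool.Agent.Q88.Heat.Stmt`.

Let `G` be an infinite group, `σ` any normalized 2-cocycle, and `d` any unbounded negative definite
function `G → [0, ∞)` with `d(e) = 0` (such `d` exists exactly when `G` does not have property (T)).
Then there is one element `x₀` of the reduced twisted group C*-algebra that is not in `CF(G, σ)`
such that for every `t > 0` its image under the heat map of `d` at time `t` is in `CF(G, σ)`. The
heat map enters in two ways: every map `M` with the defining properties of the heat map sends `x₀`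
into `CF(G, σ)`, and the operator `y` with the Fourier coefficients `e^{-t d(g)} x̂₀(g)` exists and
is in `CF(G, σ)`.

Idea of the proof.  The key lemma says that for every infinite group and every cocycle there are
finite Fourier series of norm at most `1` having partial sums of arbitrarily large norm. They are
noncommutative Rudin-Shapiro products over sets `F = {∏ h_i^{ε_i}}`: a suitable other product
`∏ (1 + z_i Λ(h_i))`, `z_i ∈ {1, i, -1, -i}`, has norm at least `√(1 + k/4) 2^{k/2}`, by a fourth
moment estimate in which `h_k` is chosen so that conjugation by it is almost positive on a given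
element. Then `x₀` is a sum of translates of such series by elements with huge values of `d`.
-/

namespace Pool.Agent.Results.MP_6efe58_an.HeatSmoothing

open Q88.HeatS

/-- Q1 for every unbounded `d`, with one element `x₀` for all times `t > 0`. Here `Λ g` is the
operator `Λ_σ(g)`, which exists. -/
theorem result {G : Type*} [Group G] [Infinite G] (σ : G → G → Circle) (hσ : IsCocycle σ)
    (d : G → ℝ) (hd : ND0 d) (hub : ¬ ∃ K, ∀ g, d g ≤ K) :
    (∃ Λ : G → Op G, IsLam σ Λ) ∧ ∀ Λ : G → Op G, IsLam σ Λ →
    ∃ x₀ ∈ redC Λ, x₀ ∉ CF Λ ∧ ∀ t : ℝ, 0 < t →
      (∃ y ∈ CF Λ, ∀ g, hat y g = (Real.exp (-(t * d g)) : ℂ) * hat x₀ g) ∧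
      (∀ M, IsHeat Λ d t M → M x₀ ∈ CF Λ) :=
  main hσ hd hub

end Pool.Agent.Results.MP_6efe58_an.HeatSmoothing
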